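import Mathlib

/-!
# Finite unit norm tight frames of every length in real `ℓ_1^n`

For `0 ≤ r ≤ n` the `n` pairs `(e_j, f_j)`, `f_j = e_j^* - (r/n) ∑_{k ≠ j} e_k^*`, together with `r`
copies of `((1/n) ∑_j e_j, ∑_j e_j^*)` form a FUNTF of length `n + r`; adding copies of the FUNTF
`(e_j, e_j^*)` of length `n` gives every length `N ≥ n`.
-/

set_option autoImplicit false

namespace Pool.Agent.Results.MP_580194_an.AllLengths

open Finset

/-- A finite unit norm tight frame of length `N` for the finite-dimensional real normed space `X`: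
pairs `(x i, f i)` with `‖x i‖ = ‖f i‖ = f i (x i) = 1` (`‖f i‖` is the dual norm) and
`∑ i, f i y • x i = (N / dim X) • y` for all `y`. -/
def HasFUNTF (X : Type*) [NormedAddCommGroup X] [NormedSpace ℝ X] (N : ℕ) : Prop :=
  ∃ (x : Fin N → X) (f : Fin N → (X →L[ℝ] ℝ)),
    (∀ i, ‖x i‖ = 1 ∧ ‖f i‖ = 1 ∧ f i (x i) = 1) ∧
    ∀ y : X, ∑ i, f i y • x i = ((N : ℝ) / Module.finrank ℝ X) • y

/-- Real `ℓ_1^n`: `ℝ^n` with the norm `‖x‖ = ∑ j, |x j|`. -/
abbrev L1 (n : ℕ) : Type := PiLp 1 (fun _ : Fin n => ℝ)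

theorem norm_L1 {n : ℕ} (x : L1 n) : ‖x‖ = ∑ j, |x j| := by
  rw [PiLp.norm_eq_of_L1]
  rfl

/-- The functional with coefficients `a`. -/
noncomputable def fn {n : ℕ} (a : Fin n → ℝ) : L1 n →L[ℝ] ℝ :=
  ∑ j, a j • PiLp.proj 1 (𝕜 := ℝ) (fun _ : Fin n => ℝ) j

theorem fn_apply {n : ℕ} (a : Fin n → ℝ) (x : L1 n) : fn a x = ∑ j, a j * x j := by
  simp [fn]

/-- The coordinate form of a FUNTF of length `N`. -/
def P (n N : ℕ) : Prop :=
  ∃ (ι : Type) (_ : Fintype ι), Fintype.card ι = N ∧ ∃ x a : ι → Fin n → ℝ,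
    (∀ i, ∑ j, |x i j| = 1 ∧ (∀ j, |a i j| ≤ 1) ∧ ∑ j, a i j * x i j = 1) ∧
    ∀ j k, ∑ i, x i j * a i k = if j = k then (N : ℝ) / n else 0

theorem P.add {n N M : ℕ} (h : P n N) (h' : P n M) : P n (N + M) := by
  obtain ⟨ι, _, hι, x, a, h1, h2⟩ := h
  obtain ⟨κ, _, hκ, x', a', h1', h2'⟩ := h'
  refine ⟨ι ⊕ κ, inferInstance, by rw [Fintype.card_sum, hι, hκ], Sum.elim x x', Sum.elim a a',
    ?_, ?_⟩
  · rintro (i | i)
    · exact h1 i
    · exact h1' i
  · intro j k
    rw [Fintype.sum_sum_type]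
    simp only [Sum.elim_inl, Sum.elim_inr]
    rw [h2, h2']
    split_ifs
    · push_cast
      rw [add_div]
    · rw [add_zero]

theorem P_base {n r : ℕ} (hn : 1 ≤ n) (hr : r ≤ n) : P n (n + r) := by
  have hn0 : (n : ℝ) ≠ 0 := by
    have : n ≠ 0 := by omega
    exact_mod_cast this
  have hn1 : (0 : ℝ) < n := by
    have : 0 < n := hn
    exact_mod_cast this
  have hrn : (r : ℝ) / n ≤ 1 := by
    rw [div_le_one hn1]
    exact_mod_cast hr
  have hrn0 : 0 ≤ (r : ℝ) / n := by positivity
  refine ⟨Fin n ⊕ Fin r, inferInstance, by simp,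
    Sum.elim (fun i j => if i = j then 1 else 0) (fun _ _ => 1 / (n : ℝ)),
    Sum.elim (fun i j => if i = j then 1 else -((r : ℝ) / n)) (fun _ _ => 1), ?_, ?_⟩
  · rintro (i | i)
    · simp only [Sum.elim_inl]
      refine ⟨?_, ?_, ?_⟩
      · rw [Finset.sum_eq_single i]
        · simp
        · intro j _ hj
          rw [if_neg hj.symm, abs_zero]
        · simp
      · intro j
        split_ifs
        · simp
        · rw [abs_neg, abs_of_nonneg hrn0]
          exact hrn
      · rw [Finset.sum_eq_single i]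
        · simp
        · intro j _ hj
          rw [if_neg hj.symm, if_neg hj.symm, mul_zero]
        · simp
    · simp only [Sum.elim_inr]
      refine ⟨?_, ?_, ?_⟩
      · rw [abs_of_nonneg (by positivity)]
        simp [hn0]
      · simp
      · simp [hn0]
  · intro j k
    rw [Fintype.sum_sum_type]
    simp only [Sum.elim_inl, Sum.elim_inr, mul_one, Finset.sum_const, Finset.card_univ,
      Fintype.card_fin, nsmul_eq_mul]
    rw [Finset.sum_eq_single j]
    · rw [if_pos rfl, one_mul]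
      split_ifs
      · push_cast
        field_simp
      · field_simp
        ring
    · intro i _ hi
      rw [if_neg hi, zero_mul]
    · simp

theorem P_all {n : ℕ} (hn : 1 ≤ n) (N : ℕ) (hN : n ≤ N) : P n N := by
  induction N using Nat.strong_induction_on with
  | _ N ih =>
  by_cases h : N ≤ n + n
  · have := P_base hn (r := N - n) (by omega)
    rwa [Nat.add_sub_cancel' hN] at this
  · have h1 := ih (N - n) (by omega) (by omega)
    have h2 := P_base hn (r := 0) (by omega)
    have := h1.add h2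
    rwa [add_zero, Nat.sub_add_cancel hN] at this

/-- **Real `ℓ_1^n` has a finite unit norm tight frame of every length `N ≥ n`.** -/
theorem result (n : ℕ) (hn : 1 ≤ n) (N : ℕ) (hN : n ≤ N) : HasFUNTF (L1 n) N := by
  obtain ⟨ι, _, hι, x, a, h1, h2⟩ := P_all hn N hN
  have hrank : Module.finrank ℝ (L1 n) = n := by
    have := (WithLp.linearEquiv 1 ℝ (Fin n → ℝ)).finrank_eq
    rw [this, Module.finrank_fin_fun]
  let e : Fin N ≃ ι := (Fintype.equivFinOfCardEq hι).symm
  refine ⟨fun i => WithLp.toLp 1 (x (e i)), fun i => fn (a (e i)), fun i => ?_, fun y => ?_⟩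
  · obtain ⟨b1, b2, b3⟩ := h1 (e i)
    have hx : ‖(WithLp.toLp 1 (x (e i)) : L1 n)‖ = 1 := by
      rw [norm_L1]
      exact b1
    have hf : fn (a (e i)) (WithLp.toLp 1 (x (e i)) : L1 n) = 1 := by
      rw [fn_apply]
      exact b3
    refine ⟨hx, le_antisymm ?_ ?_, hf⟩
    · refine ContinuousLinearMap.opNorm_le_bound _ zero_le_one fun z => ?_
      rw [fn_apply, norm_L1, one_mul, Real.norm_eq_abs]
      refine (Finset.abs_sum_le_sum_abs _ _).trans (Finset.sum_le_sum fun j _ => ?_)
      rw [abs_mul]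
      exact mul_le_of_le_one_left (abs_nonneg _) (b2 j)
    · have := (fn (a (e i))).le_opNorm (WithLp.toLp 1 (x (e i)))
      rw [hf, hx, mul_one, norm_one] at this
      exact this
  · ext j
    have e1 : (∑ i, fn (a (e i)) y • (WithLp.toLp 1 (x (e i)) : L1 n)) j =
        ∑ i : Fin N, ∑ k, x (e i) j * a (e i) k * y k := by
      rw [WithLp.ofLp_sum, Finset.sum_apply]
      refine Finset.sum_congr rfl fun i _ => ?_
      simp only [PiLp.smul_apply, fn_apply, smul_eq_mul, Finset.sum_mul]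
      refine Finset.sum_congr rfl fun k _ => ?_
      ring
    rw [e1, Finset.sum_comm, hrank]
    have e2 : ∀ k, ∑ i : Fin N, x (e i) j * a (e i) k * y k =
        (if j = k then (N : ℝ) / n else 0) * y k := by
      intro k
      rw [← Finset.sum_mul, ← h2 j k, ← Equiv.sum_comp e]
    simp_rw [e2]
    rw [Finset.sum_eq_single j]
    · simp
    · intro k _ hk
      rw [if_neg hk.symm, zero_mul]
    · simp

end Pool.Agent.Results.MP_580194_an.AllLengths
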